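import Pool.Agent.helper51.EY.ZDef
import Pool.Agent.helper50.EY.ClassE

set_option autoImplicit false
set_option linter.unusedSectionVars false
set_option linter.unusedSimpArgs false

/-!
# EY-ZJ2: the sheet `v = 0`, `v = (q-2)/2 y² - w`, of the step `Z(ω)`: multiplicity `2 q^(card ρ)`

Weights `w : 2q`, `y : q`, `b : 2q`, `z : 2`.  Initial forms: `(q-2)/2 y² - w`,
`2θ(b + ω w) - θ ω y² - φ_w(|z|²/2; 0,0,z)`, `φ_b(|z|²/2; 0,0,z) + θ y²`, `φ_z(|z|²/2; 0,0,z)`, all of weight `2q`.
-/

namespace EY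

open MvPolynomial

noncomputable section

variable {ρ : Type} [Fintype ρ] [DecidableEq ρ]

/-- the weights `w : 2q`, `y : q`, `b : 2q`, `z : 2` -/
def wJ (ρ : Type) (q : ℕ) : Option (Option (Option ρ)) → ℕ
  | none => 2 * q
  | some none => q
  | some (some none) => 2 * q
  | some (some (some _)) => 2

/-- the doubled weights `σ : 4`, others `2` -/
def vw2 (τ : Type) : Option (Option τ) → ℕ := fun o => 2 * vw τ o

private lemma wd_two {σ : Type*} [Fintype σ] (w : σ → ℕ) (α : σ →₀ ℕ) : wd (fun i => 2 * w i) α = 2 * wd w α := by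
  unfold wd
  rw [Finset.mul_sum]
  exact Finset.sum_congr rfl fun i _ => by ring

theorem wh_vw2 {τ : Type} [Fintype τ] {s : ℕ} {ψ : MvPolynomial (Option (Option τ)) ℂ} (h : wh (vw τ) s ψ) :
    wh (vw2 τ) (2 * s) ψ := by
  intro α hα
  have h1 := h α hα
  unfold vw2
  rw [wd_two, h1]

private lemma wh_ev0 {σ : Type*} [Fintype σ] {w : σ → ℕ} {s : ℕ} {ψ : MvPolynomial σ ℂ} (h : wh w s ψ)
    (hs : 0 < s) : eval (0 : σ → ℂ) ψ = 0 := by
  have h1 : eval (0 : σ → ℂ) ψ = coeff 0 ψ := by
    rw [← constantCoeff_eq, eval_zero]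
  rw [h1]
  by_contra h2
  have h3 := h 0 h2
  rw [wd_zero] at h3
  omega

/-- `|z|²/2` -/
def qz (ρ : Type) [Fintype ρ] : MvPolynomial (Option (Option (Option ρ))) ℂ :=
  C (1 / 2) * ∑ r : ρ, X (some (some (some r))) ^ 2

/-- the initial substitution: `σ ↦ |z|²/2`, `w, b ↦ 0`, `z ↦ z` -/
def pJ2 (ρ : Type) [Fintype ρ] : Option (Option (Option ρ)) → MvPolynomial (Option (Option (Option ρ))) ℂ
  | none => qz ρ
  | some none => 0
  | some (some none) => 0
  | some (some (some r)) => X (some (some (some r)))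

private lemma wh_qz (q : ℕ) : wh (wJ ρ q) 4 (qz ρ) := by
  unfold qz
  refine wh_C_mul _ (wh_sum _ fun r _ => ?_)
  exact wh_pow (wh_X (wJ ρ q) (some (some (some r)))) 2

private lemma lead_qc {q : ℕ} (h3 : 3 ≤ q) : Lead (wJ ρ q) 4 (qc (Option (Option ρ))) (qz ρ) := by
  have e : qc (Option (Option ρ)) = qz ρ + (X none + C (1 / 2) * (X (some none) ^ 2 + X (some (some none)) ^ 2)) := by
    unfold qc qz
    rw [Fintype.sum_option, Fintype.sum_option]
    ring
  rw [e]
  refine (Lead.self (wh_qz q).wlo).add_hi (wlo_add ?_ (wlo_C_mul _ (wlo_add ?_ ?_)))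
  · exact wlo_mono (by change 4 + 1 ≤ 2 * q; omega) (wh_X (wJ ρ q) none).wlo
  · exact wlo_mono (by change 4 + 1 ≤ q * 2; omega) (wh_pow (wh_X (wJ ρ q) (some none)) 2).wlo
  · exact wlo_mono (by change 4 + 1 ≤ 2 * q * 2; omega) (wh_pow (wh_X (wJ ρ q) (some (some none))) 2).wlo

/-- the initial form of a weighted homogeneous polynomial in the chart -/
theorem lead_chY2 {q s : ℕ} (h3 : 3 ≤ q) {ψ : MvPolynomial (Option (Option (Option ρ))) ℂ}
    (hψ : wh (vw (Option ρ)) s ψ) :
    Lead (wJ ρ q) (2 * s) (chY (Option ρ) ψ) (aeval (pJ2 ρ) ψ) := by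
  unfold chY
  refine Lead.aeval (v := vw2 (Option ρ)) ?_ (Lead.self (wh_vw2 hψ).wlo)
  intro o
  rcases o with _ | _ | _ | r
  · exact lead_qc h3
  · exact Lead.of_lt (wh_X (wJ ρ q) none).wlo (by change 2 * 1 < 2 * q; omega)
  · exact Lead.of_lt (wh_X (wJ ρ q) (some (some none))).wlo (by change 2 * 1 < 2 * q; omega)
  · exact Lead.X (wJ ρ q) (some (some (some r)))

theorem wh_pJ2 {q s : ℕ} {ψ : MvPolynomial (Option (Option (Option ρ))) ℂ}
    (hψ : wh (vw (Option ρ)) s ψ) : wh (wJ ρ q) (2 * s) (aeval (pJ2 ρ) ψ) := by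
  refine wh_aeval (v := vw2 (Option ρ)) ?_ (wh_vw2 hψ)
  intro o
  rcases o with _ | _ | _ | r
  · exact wh_qz q
  · exact wh_zero _ _
  · exact wh_zero _ _
  · exact wh_X (wJ ρ q) (some (some (some r)))

theorem eval_pJ2 (p : Option (Option (Option ρ)) → ℂ) (ψ : MvPolynomial (Option (Option (Option ρ))) ℂ) :
    eval p (aeval (pJ2 ρ) ψ) =
      eval (zpt (hq fun r => p (some (some (some r)))) 0 0 fun r => p (some (some (some r)))) ψ := by
  have h : (eval p).comp (aeval (pJ2 ρ) : MvPolynomial (Option (Option (Option ρ))) ℂ →ₐ[ℂ] _).toRingHom =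
      eval (zpt (hq fun r => p (some (some (some r)))) 0 0 fun r => p (some (some (some r)))) := by
    apply MvPolynomial.ringHom_ext
    · intro c
      simp
    · intro o
      rcases o with _ | _ | _ | r
      · simp [pJ2, qz, zpt, vec, hq]
        ring
      · simp [pJ2, zpt, vec]
      · simp [pJ2, zpt, vec]
      · simp [pJ2, zpt, vec]
  exact RingHom.congr_fun h ψ

/-- **the sheet `v = 0`** of the step `Z(ω)` -/
theorem z_J2 {q : ℕ} (hq3 : 3 ≤ q) {φ : MvPolynomial (Option (Option (Option ρ))) ℂ}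
    (hφ : wh (vw (Option ρ)) (q + 1) φ) {θ : ℂ} (hθ : θ ≠ 0) (ω : ℂ)
    (hB : ∀ z : ρ → ℂ,
      (∀ r, eval (zpt (hq z) 0 0 z) (pderiv (some (some (some r))) φ) = 0) → z = 0) :
    mulAt (Ideal.span (Set.range (zSys φ θ ω (zv ρ q)))) 0 = 2 * q ^ Fintype.card ρ := by
  have hφ' : ∀ o : Option (Option ρ), wh (vw (Option ρ)) q (pderiv (some o) φ) := fun o =>
    wh_pderiv hφ (some o) q (by rcases o with _ | o <;> rfl)
  have hw : wh (wJ ρ q) (2 * q) (X none) := wh_X (wJ ρ q) none
  have hb : wh (wJ ρ q) (2 * q) (X (some (some none))) := wh_X (wJ ρ q) (some (some none))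
  have hy : wh (wJ ρ q) (2 * q) (X (some none) ^ 2) := by
    have h1 := wh_pow (wh_X (wJ ρ q) (some none)) 2
    have e : wJ ρ q (some none) * 2 = 2 * q := by change q * 2 = 2 * q; ring
    rwa [e] at h1
  have hL : Lead (wJ ρ q) (2 * q) (zL φ θ ω)
      (aeval (pJ2 ρ) (pderiv (some none) φ) + C (θ * ω) * X (some none) ^ 2) :=
    (lead_chY2 hq3 (hφ' none)).add (Lead.self (wh_C_mul _ hy).wlo)
  have hLw : wh (wJ ρ q) (2 * q)
      (aeval (pJ2 ρ) (pderiv (some none) φ) + C (θ * ω) * X (some none) ^ 2) :=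
    wh_add (wh_pJ2 (hφ' none)) (wh_C_mul _ hy)
  have hhw : wh (wJ ρ q) (2 * q) (C (2 * θ) * zh ρ ω) := by
    unfold zh
    exact wh_C_mul _ (wh_add hb (wh_C_mul _ hw))
  let G0 : Option (Option (Option ρ)) → MvPolynomial (Option (Option (Option ρ))) ℂ := fun o =>
    match o with
    | none => zv ρ q
    | some none => C (2 * θ) * zh ρ ω - (aeval (pJ2 ρ) (pderiv (some none) φ) + C (θ * ω) * X (some none) ^ 2)
    | some (some none) => aeval (pJ2 ρ) (pderiv (some (some none)) φ) + C θ * X (some none) ^ 2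
    | some (some (some r)) => aeval (pJ2 ρ) (pderiv (some (some (some r))) φ)
  have hvw : wh (wJ ρ q) (2 * q) (zv ρ q) := by
    unfold zv
    exact wh_sub (wh_C_mul _ hy) hw
  have h1 := wBez (w := wJ ρ q)
    (fun o => by
      rcases o with _ | _ | _ | r
      · change 0 < 2 * q; omega
      · change 0 < q; omega
      · change 0 < 2 * q; omega
      · exact two_pos)
    (f := zSys φ θ ω (zv ρ q)) (g := G0) (d := fun _ => 2 * q)
    (fun _ => by omega)
    (fun o => by
      rcases o with _ | _ | _ | r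
      · exact hvw
      · exact wh_sub hhw hLw
      · exact wh_add (wh_pJ2 (hφ' _)) (wh_C_mul _ hy)
      · exact wh_pJ2 (hφ' _))
    (fun x hx => by
      have hz : (fun r => x (some (some (some r)))) = 0 := by
        apply hB
        intro r
        have h3 : eval x (aeval (pJ2 ρ) (pderiv (some (some (some r))) φ)) = 0 := hx (some (some (some r)))
        rwa [eval_pJ2] at h3
      have hev : ∀ o, eval x (aeval (pJ2 ρ) (pderiv (some o) φ)) = 0 := by
        intro o
        rw [eval_pJ2]
        have e1 : zpt (hq fun r => x (some (some (some r)))) 0 0 (fun r => x (some (some (some r)))) =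
            (0 : Option (Option (Option ρ)) → ℂ) := by
          rw [hz]
          funext o'
          rcases o' with _ | _ | _ | r
          · simp [zpt, vec, hq]
          · rfl
          · rfl
          · rfl
        rw [e1]
        exact wh_ev0 (hφ' o) (by omega)
      have hy0 : x (some none) = 0 := by
        have h3 := hx (some (some none))
        have h4 : eval x (aeval (pJ2 ρ) (pderiv (some (some none)) φ) + C θ * X (some none) ^ 2) = 0 := h3
        rw [map_add, hev] at h4
        simpa [hθ] using h4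
      have hw0 : x none = 0 := by
        have h3 : eval x (zv ρ q) = 0 := hx none
        unfold zv at h3
        simpa [hy0] using h3
      have hb0 : x (some (some none)) = 0 := by
        have h3 : eval x (C (2 * θ) * zh ρ ω -
          (aeval (pJ2 ρ) (pderiv (some none) φ) + C (θ * ω) * X (some none) ^ 2)) = 0 := hx (some none)
        rw [map_sub, map_add, hev] at h3
        unfold zh at h3
        simpa [hy0, hw0, hθ] using h3
      funext o
      rcases o with _ | _ | _ | r
      · exact hw0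
      · exact hy0
      · exact hb0
      · exact congrFun hz r)
    (fun o => by
      rcases o with _ | _ | _ | r
      · exact Lead.self hvw.wlo
      · exact (Lead.self hhw.wlo).sub hL
      · change Lead (wJ ρ q) (2 * q) (chY (Option ρ) (pderiv (some (some none)) φ) + C θ * X (some none) ^ 2 -
          X (some (some none)) * zL φ θ ω)
          (aeval (pJ2 ρ) (pderiv (some (some none)) φ) + C θ * X (some none) ^ 2)
        rw [sub_eq_add_neg]
        refine ((lead_chY2 hq3 (hφ' _)).add (Lead.self (wh_C_mul _ hy).wlo)).add_hi (wlo_neg ?_)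
        exact wlo_mono (by omega) (wlo_mul hb.wlo hL.lof)
      · change Lead (wJ ρ q) (2 * q) (chY (Option ρ) (pderiv (some (some (some r))) φ) -
          X (some (some (some r))) * zL φ θ ω) (aeval (pJ2 ρ) (pderiv (some (some (some r))) φ))
        rw [sub_eq_add_neg]
        refine (lead_chY2 hq3 (hφ' _)).add_hi (wlo_neg ?_)
        exact wlo_mono (by change 2 * q + 1 ≤ 2 + 2 * q; omega)
          (wlo_mul (wh_X (wJ ρ q) (some (some (some r)))).wlo hL.lof))
  have hprod : ∏ o, wJ ρ q o = 4 * q ^ 3 * 2 ^ Fintype.card ρ := by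
    rw [Fintype.prod_option, Fintype.prod_option, Fintype.prod_option]
    have : ∏ i : ρ, wJ ρ q (some (some (some i))) = 2 ^ Fintype.card ρ := by
      simp [wJ]
    rw [this]
    change 2 * q * (q * (2 * q * 2 ^ Fintype.card ρ)) = _
    ring
  have hd : ∏ _o : Option (Option (Option ρ)), 2 * q = (2 * q) ^ (Fintype.card ρ + 3) := by
    rw [Finset.prod_const, Finset.card_univ, Fintype.card_option, Fintype.card_option, Fintype.card_option]
  rw [hprod, hd] at h1
  have hpos : 0 < 4 * q ^ 3 * 2 ^ Fintype.card ρ := by positivity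
  apply Nat.eq_of_mul_eq_mul_right hpos
  rw [h1, mul_pow, pow_add, pow_add]
  ring

end

end EY
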