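import Mathlib

set_option autoImplicit false

/-!
# EY-Sard: finitely many critical values (algebraic Sard)

`{c | f + c M has a critical zero outside M = 0}` is finite.

PROOF. Let `K` be the fraction field of `ℂ[t]`. If the system `y M = 1`, `f + t M = 0`, `∂_i f + t ∂_i M = 0` generates
a proper ideal of `K[y, x]`, there is a maximal ideal above it, with residue field `F` finite over `K` (Zariski), and
`F` has a `ℂ`-derivation `D` with `D t = 1` (`F` is formally étale over `ℂ[t]`).
Then `0 = D (f(x) + t M(x)) = ∑ (∂_i f + t ∂_i M)(x) D x_i + M(x) = M(x)`, contradiction.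
So there is a nonzero polynomial `s(t)` in the ideal generated by the system in `ℂ[t][y, x]`, and every such `c` is a
root of `s`.
-/

namespace EY

open MvPolynomial TensorProduct

noncomputable section

/-- a field which is finite over the fractions of `ℂ[t]` has a `ℂ`-derivation with `D t = 1` -/
theorem exists_der (K F : Type*) [Field K] [Algebra (Polynomial ℂ) K] [IsFractionRing (Polynomial ℂ) K] [Field F]
    [Algebra K F] [Algebra (Polynomial ℂ) F] [IsScalarTower (Polynomial ℂ) K F] [Algebra ℂ F]
    [IsScalarTower ℂ (Polynomial ℂ) F] [Module.Finite K F] :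
    ∃ D : Derivation ℂ F F, D (algebraMap (Polynomial ℂ) F Polynomial.X) = 1 := by
  have : Algebra.FormallyEtale (Polynomial ℂ) K := Algebra.FormallyEtale.of_isLocalization (nonZeroDivisors (Polynomial ℂ))
  have : CharZero K := by
    have h : Function.Injective (algebraMap (Polynomial ℂ) K) := IsFractionRing.injective _ _
    exact charZero_of_injective_algebraMap h
  have : Algebra.FormallyEtale K F := Algebra.FormallyEtale.of_isSeparable K F
  have : Algebra.FormallyEtale (Polynomial ℂ) F := Algebra.FormallyEtale.comp (Polynomial ℂ) K F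
  let d0 : Derivation ℂ (Polynomial ℂ) F := (Algebra.linearMap (Polynomial ℂ) F).compDer Polynomial.derivative'
  let L : F ⊗[Polynomial ℂ] Ω[Polynomial ℂ⁄ℂ] →ₗ[F] F := LinearMap.liftBaseChange F d0.liftKaehlerDifferential
  let e := KaehlerDifferential.tensorKaehlerEquivOfFormallyEtale ℂ (Polynomial ℂ) F
  refine ⟨(L ∘ₗ e.symm.toLinearMap).compDer (KaehlerDifferential.D ℂ F), ?_⟩
  change L (e.symm (KaehlerDifferential.D ℂ F (algebraMap (Polynomial ℂ) F Polynomial.X))) = 1
  rw [KaehlerDifferential.tensorKaehlerEquivOfFormallyEtale_symm_D_algebraMap]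
  simp [L, d0]

/-- the chain rule -/
theorem der_aeval {σ F : Type*} [Fintype σ] [Field F] [Algebra ℂ F] (D : Derivation ℂ F F) (x : σ → F)
    (p : MvPolynomial σ ℂ) : D (aeval x p) = ∑ i, aeval x (pderiv i p) * D (x i) := by
  classical
  induction p using MvPolynomial.induction_on with
  | C a => simp
  | add p q hp hq => simp only [map_add, hp, hq, add_mul, Finset.sum_add_distrib]
  | mul_X p i hp =>
    rw [map_mul, Derivation.leibniz, hp, aeval_X]
    simp only [Derivation.leibniz, pderiv_X, smul_eq_mul, map_add, map_mul, aeval_X, add_mul,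
      Finset.sum_add_distrib, Finset.mul_sum]
    congr 1
    · have h1 : ∀ j ∈ (Finset.univ : Finset σ), j ≠ i →
          aeval x p * aeval x (Pi.single (M := fun _ : σ => MvPolynomial σ ℂ) j 1 i) * D (x j) = 0 := by
        intro j _ hj
        rw [Pi.single_eq_of_ne hj.symm]
        simp
      rw [Finset.sum_eq_single i h1 fun h => absurd (Finset.mem_univ i) h, Pi.single_eq_same, map_one, mul_one]
    · exact Finset.sum_congr rfl fun j _ => by ring

variable {σ : Type*} [Fintype σ]

/-- polynomials over `ℂ` as polynomials over `ℂ[t]` with one more variable -/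
private def em : MvPolynomial σ ℂ →+* MvPolynomial (Option σ) (Polynomial ℂ) :=
  (MvPolynomial.map Polynomial.C).comp (rename (R := ℂ) (some : σ → Option σ) : MvPolynomial σ ℂ →+* _)

private def tt (σ : Type*) : MvPolynomial (Option σ) (Polynomial ℂ) := C Polynomial.X

private lemma em_X (i : σ) : em (X i : MvPolynomial σ ℂ) = X (some i) := by
  simp [em]

private lemma em_C (c : ℂ) : em (C c : MvPolynomial σ ℂ) = C (Polynomial.C c) := by
  simp [em]

/-- the system -/
private def sys (f M : MvPolynomial σ ℂ) : Option (Option σ) → MvPolynomial (Option σ) (Polynomial ℂ)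
  | none => X none * em M - 1
  | some none => em f + tt σ * em M
  | some (some i) => em (pderiv i f) + tt σ * em (pderiv i M)

private lemma hom_em {A : Type*} [CommRing A] [Algebra ℂ A] (φ : MvPolynomial (Option σ) (Polynomial ℂ) →+* A)
    (hφ : ∀ c : ℂ, φ (C (Polynomial.C c)) = algebraMap ℂ A c) (p : MvPolynomial σ ℂ) :
    φ (em p) = aeval (fun i => φ (X (some i))) p := by
  induction p using MvPolynomial.induction_on with
  | C a => rw [em_C, hφ, aeval_C]
  | add p q hp hq => rw [map_add, map_add, map_add, hp, hq]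
  | mul_X p i hp => rw [map_mul, map_mul, map_mul, hp, em_X, aeval_X]

attribute [local instance] MvPolynomial.algebraMvPolynomial in
private lemma sys_ne (f M : MvPolynomial σ ℂ) :
    ∃ s : Polynomial ℂ, s ≠ 0 ∧ (C s : MvPolynomial (Option σ) (Polynomial ℂ)) ∈ Ideal.span (Set.range (sys f M)) := by
  classical
  by_contra hcon
  push Not at hcon
  let K := FractionRing (Polynomial ℂ)
  let R := MvPolynomial (Option σ) (Polynomial ℂ)
  let RK := MvPolynomial (Option σ) K
  let I : Ideal R := Ideal.span (Set.range (sys f M))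
  have hI : I.map (algebraMap R RK) ≠ ⊤ := by
    rw [IsLocalization.map_algebraMap_ne_top_iff_disjoint
      ((nonZeroDivisors (Polynomial ℂ)).map (C (σ := Option σ) (R := Polynomial ℂ))) RK]
    rw [Set.disjoint_left]
    rintro _ ⟨s, hs, rfl⟩ h
    exact hcon s (nonZeroDivisors.ne_zero hs) h
  obtain ⟨m, hm, hIm⟩ := Ideal.exists_le_maximal _ hI
  letI : Field (RK ⧸ m) := Ideal.Quotient.field m
  have : Module.Finite K (RK ⧸ m) := finite_of_finite_type_of_isJacobsonRing K (RK ⧸ m)
  obtain ⟨D, hD⟩ := exists_der K (RK ⧸ m)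
  let φ : R →+* (RK ⧸ m) := (Ideal.Quotient.mk m).comp (algebraMap R RK)
  have hφ0 : ∀ o, φ (sys f M o) = 0 := by
    intro o
    apply Ideal.Quotient.eq_zero_iff_mem.2
    exact hIm (Ideal.mem_map_of_mem _ (Ideal.subset_span ⟨o, rfl⟩))
  have hφc : ∀ c : ℂ, φ (C (Polynomial.C c)) = algebraMap ℂ (RK ⧸ m) c := by
    intro c
    change Ideal.Quotient.mk m (MvPolynomial.map (algebraMap (Polynomial ℂ) K) (C (Polynomial.C c))) = _
    rw [MvPolynomial.map_C]
    rfl
  have hφt : φ (tt σ) = algebraMap (Polynomial ℂ) (RK ⧸ m) Polynomial.X := by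
    change Ideal.Quotient.mk m (MvPolynomial.map (algebraMap (Polynomial ℂ) K) (C Polynomial.X)) = _
    rw [MvPolynomial.map_C]
    rfl
  have hem := hom_em φ hφc
  set x : σ → RK ⧸ m := fun i => φ (X (some i)) with hx
  have e1 : φ (X none) * aeval x M - 1 = 0 := by
    have h := hφ0 none
    rw [sys, map_sub, map_mul, map_one, hem] at h
    exact h
  have e2 : aeval x f + φ (tt σ) * aeval x M = 0 := by
    have h := hφ0 (some none)
    rw [sys, map_add, map_mul, hem, hem] at h
    exact h
  have e3 : ∀ i, aeval x (pderiv i f) + φ (tt σ) * aeval x (pderiv i M) = 0 := by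
    intro i
    have h := hφ0 (some (some i))
    rw [sys, map_add, map_mul, hem, hem] at h
    exact h
  have e4 := congrArg D e2
  rw [map_add, Derivation.leibniz, map_zero, hφt, hD, der_aeval, der_aeval, ← hφt] at e4
  have e5 : aeval x M = 0 := by
    have h1 : ∑ i, (aeval x (pderiv i f) + φ (tt σ) * aeval x (pderiv i M)) * D (x i) = 0 :=
      Finset.sum_eq_zero fun i _ => by rw [e3, zero_mul]
    simp only [add_mul, Finset.sum_add_distrib, mul_assoc] at h1
    rw [← Finset.mul_sum] at h1
    simp only [smul_eq_mul, mul_one] at e4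
    linear_combination e4 - h1
  rw [e5, mul_zero, zero_sub, neg_eq_zero] at e1
  exact one_ne_zero e1

/-- **algebraic Sard**: finitely many values `c` such that `f + c M` has a critical zero outside `M = 0` -/
theorem sard (f M : MvPolynomial σ ℂ) :
    {c : ℂ | ∃ x : σ → ℂ, eval x M ≠ 0 ∧ eval x (f + C c * M) = 0 ∧
      ∀ i, eval x (pderiv i (f + C c * M)) = 0}.Finite := by
  classical
  obtain ⟨s, hs, hsI⟩ := sys_ne f M
  refine (s.roots.toFinset.finite_toSet).subset ?_
  rintro c ⟨x, h1, h2, h3⟩
  simp only [Finset.mem_coe, Multiset.mem_toFinset]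
  rw [Polynomial.mem_roots hs]
  let φ : MvPolynomial (Option σ) (Polynomial ℂ) →+* ℂ :=
    eval₂Hom (Polynomial.evalRingHom c) fun o => o.elim (eval x M)⁻¹ x
  have hφ : ∀ p : MvPolynomial σ ℂ, φ (em p) = eval x p := by
    intro p
    rw [hom_em φ (fun c' => by simp [φ]) p]
    have h4 : (fun i => φ (X (some i))) = x := by
      funext i
      simp [φ]
    rw [h4]
    rfl
  have hT : φ (tt σ) = c := by simp [φ, tt]
  have h0 : ∀ o, φ (sys f M o) = 0 := by
    intro o
    rcases o with _ | _ | i
    · rw [sys, map_sub, map_mul, map_one, hφ]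
      have h5 : φ (X none) = (eval x M)⁻¹ := by simp [φ]
      rw [h5, inv_mul_cancel₀ h1, sub_self]
    · rw [sys, map_add, map_mul, hφ, hφ, hT]
      rw [map_add, map_mul, eval_C] at h2
      exact h2
    · rw [sys, map_add, map_mul, hφ, hφ, hT]
      have h6 := h3 i
      rw [map_add, Derivation.leibniz, pderiv_C, smul_zero, add_zero, map_add, smul_eq_mul, map_mul, eval_C] at h6
      exact h6
  have h7 : Ideal.span (Set.range (sys f M)) ≤ RingHom.ker φ := by
    rw [Ideal.span_le]
    rintro _ ⟨o, rfl⟩
    exact h0 o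
  have h8 : φ (C s) = 0 := h7 hsI
  have h9 : φ (C s) = s.eval c := by simp [φ]
  rw [h9] at h8
  exact h8

end

end EY
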