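import Pool.Agent.helper81.EY.Sheet
import Pool.Agent.helper51.EY.CM

set_option autoImplicit false
set_option linter.unusedSectionVars false

/-!
# EY-EFormP (module ES3): the E-form `P(x) + t w b^q + w^(q+1)`: homogeneity, singular points, multiplicity at `e_u`

See the docstring of helper81's `EForm.lean`.
-/

namespace EY

open MvPolynomial

noncomputable section

variable {τ : Type} {q M : ℕ}

theorem eform_hom' {P : MvPolynomial (Option τ) ℂ} (hP : P.IsHomogeneous (q + 1)) (t : ℂ) :
    (eform q t P).IsHomogeneous (q + 1) := by
  unfold eform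
  refine (hP.rename_isHomogeneous.add ?_).add ?_
  · have h := (isHomogeneous_C (Option (Option (Option τ))) t).mul
      ((isHomogeneous_X ℂ (some none : Option (Option (Option τ)))).mul
        ((isHomogeneous_X ℂ (some (some none) : Option (Option (Option τ)))).pow q))
    have e : 0 + (1 + 1 * q) = q + 1 := by ring
    rwa [e] at h
  · simpa using (isHomogeneous_X ℂ (some none : Option (Option (Option τ)))).pow (q + 1)

/-! ### the partial derivatives -/

private lemma pd_notRange {κ κ' : Type} (g : κ → κ') (j : κ') (hj : j ∉ Set.range g) (p : MvPolynomial κ ℂ) :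
    pderiv j (rename g p) = 0 := by
  classical
  induction p using MvPolynomial.induction_on with
  | C a => simp
  | add p q hp hq => rw [map_add, map_add, hp, hq, add_zero]
  | mul_X p i hp =>
    rw [map_mul, Derivation.leibniz, hp, smul_zero, add_zero, rename_X, pderiv_X,
      Pi.single_eq_of_ne (fun h => hj ⟨i, h⟩), smul_zero]

theorem eform_u (t : ℂ) (P : MvPolynomial (Option τ) ℂ) : pderiv none (eform q t P) = 0 := by
  classical
  unfold eform
  rw [map_add, map_add, pd_notRange _ _ (by rintro ⟨o, ho⟩; cases ho)]
  simp [Derivation.leibniz, Derivation.leibniz_pow, pderiv_X]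

theorem eform_w (t : ℂ) (P : MvPolynomial (Option τ) ℂ) : pderiv (some none) (eform q t P) =
    C t * X (some (some none)) ^ q + C ((q : ℂ) + 1) * X (some none) ^ q := by
  classical
  unfold eform
  rw [map_add, map_add, pd_notRange _ _ (by rintro ⟨o, ho⟩; cases ho)]
  simp only [Derivation.leibniz, Derivation.leibniz_pow, pderiv_X, pderiv_C, smul_eq_mul, nsmul_eq_mul]
  simp

theorem eform_x (t : ℂ) (P : MvPolynomial (Option τ) ℂ) (o : Option τ) : pderiv (some (some o)) (eform q t P) =
    rename (fun o => some (some o)) (pderiv o P) +
      if o = none then C (t * q) * (X (some none) * X (some (some none)) ^ (q - 1)) else 0 := by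
  classical
  unfold eform
  have hinj : Function.Injective (fun o : Option τ => (some (some o) : Option (Option (Option τ)))) :=
    fun a b h => by simpa using h
  rw [map_add, map_add, pderiv_rename hinj]
  simp only [Derivation.leibniz, Derivation.leibniz_pow, pderiv_X, pderiv_C, smul_eq_mul, nsmul_eq_mul]
  by_cases h : o = none
  · subst h
    simp
    ring
  · rw [if_neg h]
    simp [h]

/-! ### the singular points -/

private lemma finite_pow_eq {n : ℕ} (hn : 0 < n) (c : ℂ) : {w : ℂ | w ^ n = c}.Finite := by
  refine ((Polynomial.nthRoots n c).toFinset.finite_toSet).subset ?_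
  intro w hw
  rw [Finset.mem_coe, Multiset.mem_toFinset, Polynomial.mem_nthRoots hn]
  exact hw

variable [Fintype τ] [DecidableEq τ] {P : MvPolynomial (Option τ) ℂ} {S : Finset (τ → ℂ)}

theorem eform_sing' (hq : 2 ≤ q) (h : IQD q τ P S M) :
    {t : ℂ | ¬ ∀ v : Option (Option (Option τ)) → ℂ, IsSing (eform q t P) v →
      ∀ o : Option (Option τ), v (some o) = 0}.Finite := by
  set Z : Set (Option τ → ℂ) := {x | (∀ f ∈ Set.range (fun i : τ => pderiv (some i) P), eval x f = 0) ∧ x none = 1}
    with hZ
  have hZfin : Z.Finite := by
    refine (finLines_of_hyperplane (Set.range (fun i : τ => pderiv (some i) P)) ?_ (g := X none) (d := 1) one_pos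
      (isHomogeneous_X ℂ none) ?_).finite_chart none
    · rintro _ ⟨i, rfl⟩
      exact ⟨_, h.hom.pderiv⟩
    · intro v hv hv0
      rw [eval_X] at hv0
      exact h.ns v hv0 fun i => hv _ ⟨i, rfl⟩
  have hfin : (⋃ x ∈ Z, {w : ℂ | w ^ (q + 1) = eval x (pderiv none P) / (q * (q + 1))}).Finite :=
    hZfin.biUnion fun x _ => finite_pow_eq (Nat.succ_pos q) _
  refine (hfin.image fun w : ℂ => -((q : ℂ) + 1) * w ^ q).subset ?_
  intro t ht
  simp only [Set.mem_ofPred_eq, not_forall] at ht
  obtain ⟨v, hv, o, ho⟩ := ht
  have hw := hv (some none)
  rw [eform_w] at hw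
  simp only [map_add, map_mul, map_pow, eval_C, eval_X] at hw
  have hx : ∀ j : Option τ, eval (fun o => v (some (some o))) (pderiv j P) +
      (if j = none then t * q * (v (some none) * v (some (some none)) ^ (q - 1)) else 0) = 0 := by
    intro j
    have h1 := hv (some (some j))
    rw [eform_x, map_add, eval_rename] at h1
    by_cases hj : j = none
    · rw [if_pos hj] at h1 ⊢
      simp only [map_mul, map_pow, eval_C, eval_X] at h1
      exact h1
    · rw [if_neg hj, map_zero] at h1
      rw [if_neg hj]
      exact h1
  set x : Option τ → ℂ := fun o => v (some (some o)) with hxdef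
  have hq0 : (q : ℂ) ≠ 0 := by
    have : q ≠ 0 := by omega
    exact_mod_cast this
  have hq1 : (q : ℂ) + 1 ≠ 0 := by exact_mod_cast Nat.succ_ne_zero q
  by_cases hb : x none = 0
  · exfalso
    have hb' : v (some (some none)) = 0 := hb
    rw [hb', zero_pow (by omega), mul_zero, zero_add] at hw
    have hw0 : v (some none) = 0 := by
      rcases mul_eq_zero.mp hw with h1 | h1
      · exact absurd h1 hq1
      · exact eq_zero_of_pow_eq_zero h1
    have hx0 : x = 0 := h.ns x hb fun i => by
      have h1 := hx (some i)
      rw [if_neg (by simp), add_zero] at h1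
      exact h1
    apply ho
    cases o with
    | none => exact hw0
    | some j => exact congrFun hx0 j
  · have hP : P.IsHomogeneous (q + 1) := h.hom
    set bb := x none with hbb
    have hb' : v (some (some none)) = bb := rfl
    rw [hb'] at hw hx
    refine ⟨v (some none) / bb, ?_, ?_⟩
    · simp only [Set.mem_iUnion, Set.mem_ofPred_eq]
      refine ⟨bb⁻¹ • x, ⟨?_, ?_⟩, ?_⟩
      · rintro _ ⟨i, rfl⟩
        have h1 := hx (some i)
        rw [if_neg (by simp), add_zero] at h1
        rw [eval_smul_hom hP.pderiv, h1, mul_zero]
      · rw [Pi.smul_apply, smul_eq_mul]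
        exact inv_mul_cancel₀ hb
      · have h1 := hx none
        rw [if_pos rfl] at h1
        have h2 : eval (bb⁻¹ • x) (pderiv none P) = (bb⁻¹) ^ q * eval x (pderiv none P) := by
          have := eval_smul_hom (hP.pderiv (i := none)) bb⁻¹ x
          simpa using this
        rw [h2, eq_div_iff (mul_ne_zero hq0 hq1), div_pow]
        have h3 : eval x (pderiv none P) = -(t * q * (v (some none) * bb ^ (q - 1))) := by
          linear_combination h1
        have h4 : t * bb ^ q = -(((q : ℂ) + 1) * v (some none) ^ q) := by
          linear_combination hw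
        obtain ⟨r, rfl⟩ : ∃ r, q = r + 1 := ⟨q - 1, by omega⟩
        rw [h3]
        simp only [Nat.add_sub_cancel]
        have h5 : (v (some none)) ^ (r + 1 + 1) = v (some none) * v (some none) ^ (r + 1) := by ring
        rw [h5]
        have h6 : ((r + 1 : ℕ) : ℂ) * (v (some none) * (((r + 1 : ℕ) : ℂ) + 1) * v (some none) ^ (r + 1)) =
            -(((r + 1 : ℕ) : ℂ) * v (some none) * (t * bb ^ (r + 1))) := by
          rw [h4]; ring
        have e : (bb ^ (r + 1))⁻¹ * bb ^ (r + 1) = 1 := inv_mul_cancel₀ (pow_ne_zero _ hb)
        rw [inv_pow, div_mul_eq_mul_div, div_eq_iff (pow_ne_zero _ hb)]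
        linear_combination h6 + (t * ((r + 1 : ℕ) : ℂ) * v (some none) * bb ^ (r + 1)) * e
    · simp only
      rw [div_pow]
      have h4 : t * bb ^ q = -(((q : ℂ) + 1) * v (some none) ^ q) := by
        linear_combination hw
      field_simp
      linear_combination -h4

/-! ### the multiplicity at `e_u` -/

private lemma dehom_rename_some (p : MvPolynomial (Option (Option τ)) ℂ) : dehom (rename some p) = p := by
  have h : dehom.comp (rename some) = AlgHom.id ℂ (MvPolynomial (Option (Option τ)) ℂ) := by
    apply MvPolynomial.algHom_ext
    intro o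
    simp [dehom_X_some]
  exact AlgHom.congr_fun h p

/-- the equation of the second sheet -/
private def ll (τ : Type) (q : ℕ) (t : ℂ) : MvPolynomial (Option (Option τ)) ℂ :=
  C t * X (some none) ^ q + C ((q : ℂ) + 1) * X none ^ q

private def aa (P : MvPolynomial (Option τ) ℂ) (q : ℕ) (t : ℂ) (o : Option τ) : MvPolynomial (Option (Option τ)) ℂ :=
  rename some (pderiv o P) + if o = none then C (t * q) * (X none * X (some none) ^ (q - 1)) else 0

private lemma dh_C (c : ℂ) : dehom (C c : MvPolynomial (Option (Option (Option τ))) ℂ) = C c := dehom.commutes c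

private lemma dh_w (t : ℂ) (P : MvPolynomial (Option τ) ℂ) :
    dehom (pderiv (some none) (eform q t P)) = ll τ q t := by
  rw [eform_w, ll]
  simp only [map_add, map_mul, map_pow, dehom_X_some, dh_C]

private lemma dh_x (t : ℂ) (P : MvPolynomial (Option τ) ℂ) (o : Option τ) :
    dehom (pderiv (some (some o)) (eform q t P)) = aa P q t o := by
  rw [eform_x, aa, map_add]
  congr 1
  · have h : (rename (fun o : Option τ => (some (some o) : Option (Option (Option τ)))) (pderiv o P)) =
        rename some (rename some (pderiv o P)) := by
      rw [rename_rename]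
      rfl
    rw [h, dehom_rename_some]
  · by_cases h : o = none
    · rw [if_pos h, if_pos h]
      simp only [map_mul, map_pow, dehom_X_some, dh_C]
    · rw [if_neg h, if_neg h, map_zero]

private lemma ch_ren (E : MvPolynomial (Option (Option (Option τ))) ℂ) : ch (rename some E) = dehom E := by
  rw [← dehom_subN, subN_rename]

private lemma pd_ren (E : MvPolynomial (Option (Option (Option τ))) ℂ) (o : Option (Option (Option τ))) :
    pderiv (some o) (rename some E) = rename some (pderiv o E) :=
  pderiv_rename (Option.some_injective _) o E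

private lemma chSys_none (t : ℂ) (P : MvPolynomial (Option τ) ℂ) :
    chSys (rename some (eform q t P)) none = X none * (-ll τ q t) := by
  rw [chSys, pd_ren, pd_ren, ch_ren, ch_ren, eform_u, dh_w, map_zero]
  ring

private lemma chSys_some (t : ℂ) (P : MvPolynomial (Option τ) ℂ) (j : Option τ) :
    chSys (rename some (eform q t P)) (some j) = aa P q t j - X (some j) * ll τ q t := by
  rw [chSys, pd_ren, pd_ren, ch_ren, ch_ren, dh_w, dh_x]

private lemma span_range_option {κ R : Type*} [CommRing R] (f : Option κ → R) :
    Ideal.span (Set.range f) = Ideal.span {f none} ⊔ Ideal.span (Set.range fun j : κ => f (some j)) := by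
  rw [← Ideal.span_union]
  congr 1
  ext x
  simp only [Set.mem_range, Set.singleton_union, Set.mem_insert_iff]
  constructor
  · rintro ⟨_ | j, rfl⟩
    · exact Or.inl rfl
    · exact Or.inr ⟨j, rfl⟩
  · rintro (rfl | ⟨j, rfl⟩)
    · exact ⟨none, rfl⟩
    · exact ⟨some j, rfl⟩

private lemma wh_hom {σ : Type*} [Fintype σ] {f : MvPolynomial σ ℂ} {n : ℕ} (hf : f.IsHomogeneous n) :
    wh (fun _ => 1) n f := by
  intro α hα
  have h1 := hf hα
  rw [Finsupp.weight_apply, Finsupp.sum_fintype _ _ (fun i => by simp)] at h1
  unfold wd
  simpa using h1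

theorem eform_mul' (hq : 2 ≤ q) (h : IQD q τ P S M) (t : ℂ) (ht : t ≠ 0)
    (hs : ∀ v : Option (Option (Option τ)) → ℂ, IsSing (eform q t P) v →
      ∀ o : Option (Option τ), v (some o) = 0) :
    mulAt (affIdeal (eform q t P) (gram (Option τ)) (some none)) 0 =
      q ^ (Fintype.card τ + 2) + q ^ (Fintype.card τ + 1) + M := by
  have e0 : affIdeal (eform q t P) (gram (Option τ)) (some none) =
      Ideal.span (Set.range (chSys (rename some (eform q t P)))) := by
    rw [← affIdeal_subN, subN_rename]
  rw [e0]
  set f := chSys (rename some (eform q t P)) with hf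
  have hfs : f = Function.update f none (X none * (-ll τ q t)) := by
    rw [eq_comm, Function.update_eq_self_iff]
    exact (chSys_none t P).symm
  -- the sheet `w = 0`
  have ha : mulAt (Ideal.span (Set.range (Function.update f none (X none)))) 0 = q ^ (Fintype.card τ + 1) + M := by
    have hX : (X none : MvPolynomial (Option (Option τ)) ℂ) ∈
        Ideal.span (Set.range (Function.update f none (X none))) :=
      Ideal.subset_span ⟨none, Function.update_self ..⟩
    rw [mulAt_sheet _ hX, ← special_sheet hq h ht]
    congr 1
    rw [Ideal.map_span, ← Set.range_comp, span_range_option]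
    have h1 : ((subN (0 : MvPolynomial (Option τ) ℂ)) ∘ Function.update f none (X none)) none = 0 := by
      rw [Function.comp_apply, Function.update_self, subN_none]
    rw [h1, Ideal.span_singleton_eq_bot.mpr rfl, bot_sup_eq]
    congr 2
    funext j
    rw [Function.comp_apply, Function.update_of_ne (by simp), hf, chSys_some, aa, ll]
    have hC : ∀ c : ℂ, subN (0 : MvPolynomial (Option τ) ℂ) (C c) = C c := fun c => AlgHom.commutes _ c
    have h2 : subN (0 : MvPolynomial (Option τ) ℂ)
        (if j = none then C (t * q) * (X none * X (some none) ^ (q - 1)) else 0) = 0 := by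
      split_ifs
      · simp only [map_mul, subN_none]
        ring
      · exact map_zero _
    rw [map_sub, map_add, h2, subN_rename, map_mul, map_add, map_mul, map_mul, map_pow, map_pow, subN_none,
      subN_some, subN_some, hC, zero_pow (by omega)]
    ring
  -- the sheet `L' = 0`
  have hb : mulAt (Ideal.span (Set.range (Function.update f none (-ll τ q t)))) 0 = q ^ (Fintype.card τ + 2) := by
    set g : Option (Option τ) → MvPolynomial (Option (Option τ)) ℂ :=
      fun o => dehom (pderiv (some o) (eform q t P)) with hg
    have hgn : g none = ll τ q t := dh_w t P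
    have hgs : ∀ j, g (some j) = aa P q t j := dh_x t P
    have e1 : Ideal.span (Set.range (Function.update f none (-ll τ q t))) = Ideal.span (Set.range g) := by
      apply le_antisymm
      · rw [Ideal.span_le]
        rintro _ ⟨_ | j, rfl⟩
        · rw [Function.update_self, ← hgn]
          exact neg_mem (Ideal.subset_span ⟨none, rfl⟩)
        · rw [Function.update_of_ne (by simp), hf, chSys_some, ← hgn, ← hgs]
          exact sub_mem (Ideal.subset_span ⟨some j, rfl⟩) (Ideal.mul_mem_left _ _ (Ideal.subset_span ⟨none, rfl⟩))
      · have h0 : ll τ q t ∈ Ideal.span (Set.range (Function.update f none (-ll τ q t))) := by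
          have h1 : -ll τ q t ∈ Ideal.span (Set.range (Function.update f none (-ll τ q t))) :=
            Ideal.subset_span ⟨none, Function.update_self ..⟩
          simpa using neg_mem h1
        rw [Ideal.span_le]
        rintro _ ⟨_ | j, rfl⟩
        · rw [hgn]
          exact h0
        · have h1 : f (some j) ∈ Ideal.span (Set.range (Function.update f none (-ll τ q t))) :=
            Ideal.subset_span ⟨some j, by rw [Function.update_of_ne (by simp)]⟩
          rw [hf, chSys_some, ← hgs] at h1
          have h2 := add_mem h1 (Ideal.mul_mem_left _ (X (some j)) h0)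
          simpa using h2
    rw [e1]
    have hom : ∀ o, (g o).IsHomogeneous q := by
      rintro (_ | j)
      · rw [hgn, ll]
        have h1 := (isHomogeneous_C (Option (Option τ)) t).mul
          ((isHomogeneous_X ℂ (some none : Option (Option τ))).pow q)
        have h2 := (isHomogeneous_C (Option (Option τ)) ((q : ℂ) + 1)).mul
          ((isHomogeneous_X ℂ (none : Option (Option τ))).pow q)
        rw [zero_add, one_mul] at h1 h2
        exact h1.add h2
      · rw [hgs, aa]
        refine IsHomogeneous.add ?_ ?_
        · have h1 := (h.hom.pderiv (i := j)).rename_isHomogeneous (f := (some : Option τ → Option (Option τ)))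
          simpa using h1
        · split_ifs
          · have h1 := (isHomogeneous_C (Option (Option τ)) (t * q)).mul
              ((isHomogeneous_X ℂ (none : Option (Option τ))).mul
                ((isHomogeneous_X ℂ (some none : Option (Option τ))).pow (q - 1)))
            have e : 0 + (1 + 1 * (q - 1)) = q := by omega
            rwa [e] at h1
          · exact isHomogeneous_zero _ _ _
    have h0 : ∀ x : Option (Option τ) → ℂ, (∀ o, eval x (g o) = 0) → x = 0 := by
      intro x hx
      have h1 := hs (fun o => o.elim 1 x) (by
        rintro (_ | o)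
        · rw [eform_u, map_zero]
        · have h2 := hx o
          rw [hg] at h2
          simp only [eval_dehom] at h2
          exact h2)
      funext o
      exact h1 o
    have h2 := wBez (w := fun _ : Option (Option τ) => 1) (d := fun _ => q) (f := g) (g := g)
      (fun _ => one_pos) (fun _ => by omega) (fun o => wh_hom (hom o)) h0
      (fun o => Lead.self (wh_hom (hom o)).wlo)
    simp only [Finset.prod_const_one, mul_one, Finset.prod_const, Finset.card_univ, Fintype.card_option] at h2
    exact h2
  have hq0 : 0 < q := by omega
  have h1 := cmAdd f none (X none) (-ll τ q t) (by rw [ha]; positivity) (by rw [hb]; positivity)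
  rw [hfs, h1, ha, hb]
  ring

end

end EY
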