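import Pool.Agent.helper51.EY.ZDef
import Pool.Agent.helper50.EY.ClassE

set_option autoImplicit false
set_option linter.unusedSectionVars false
set_option linter.unusedSimpArgs false

/-!
# EY-T2J1: the sheet `h = 0`, `h = b + ω w`, `ω ≠ 0`, of the step `Z(ω)` over a state `φ = t σ b^(q-1) + Pw(w, b, z)`

Weights `w : 2`, `y : q`, `b : 2`, `z : 2`.  Generators of the ideal of the sheet: `h`, `L = Pw_w + θ ω y²`,
`ω (φ_b + θ y²) - L` with initial form `ω t (q-1) w b^(q-2)` of weight `2(q-1)`, and `Pw_z`.  Multiplicity
`2 (q-1) q^(card ρ)` as soon as `Pw_z(0,0,z)` has only the zero `0`.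
-/

namespace EY

open MvPolynomial

noncomputable section

variable {ρ : Type} [Fintype ρ] [DecidableEq ρ]

/-- the weights `w : 2`, `y : q`, `b : 2`, `z : 2` -/
def wT2 (ρ : Type) (q : ℕ) : Option (Option (Option ρ)) → ℕ
  | none => 2
  | some none => q
  | some (some _) => 2

private lemma wh_two {σ : Type*} [Fintype σ] {f : MvPolynomial σ ℂ} {n : ℕ} (hf : f.IsHomogeneous n) :
    wh (fun _ => 2) (2 * n) f := by
  intro α hα
  have h1 := hf hα
  rw [Finsupp.weight_apply, Finsupp.sum_fintype _ _ (fun i => by simp)] at h1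
  unfold wd
  rw [← Finset.mul_sum]
  congr 1
  simpa using h1

private lemma wh_ins {q n : ℕ} {p : MvPolynomial (Option (Option ρ)) ℂ} (hp : p.IsHomogeneous n) :
    wh (wT2 ρ q) (2 * n) (rename (insY (Option ρ)) p) := by
  rw [rename_eq_aeval]
  refine wh_aeval (v := fun _ => 2) ?_ (wh_two hp)
  intro o
  rcases o with _ | o
  · exact wh_X (wT2 ρ q) none
  · exact wh_X (wT2 ρ q) (some (some o))

private lemma chY_ren (p : MvPolynomial (Option (Option ρ)) ℂ) :
    chY (Option ρ) (rename some p) = rename (insY (Option ρ)) p := by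
  unfold chY
  rw [aeval_rename, rename_eq_aeval]
  congr 2
  funext o
  rcases o with _ | o <;> rfl

private lemma ev_ins (x : Option (Option (Option ρ)) → ℂ) (p : MvPolynomial (Option (Option ρ)) ℂ) :
    eval x (rename (insY (Option ρ)) p) = eval (fun o => x (insY (Option ρ) o)) p := by
  rw [eval_rename]
  rfl

/-- the modified system -/
private def tS (φ : MvPolynomial (Option (Option (Option ρ))) ℂ) (θ ω : ℂ) :
    Option (Option (Option ρ)) → MvPolynomial (Option (Option (Option ρ))) ℂ
  | none => zh ρ ω
  | some none => zL φ θ ω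
  | some (some none) => C ω * (chY (Option ρ) (pderiv (some (some none)) φ) + C θ * X (some none) ^ 2) - zL φ θ ω
  | some (some (some r)) => chY (Option ρ) (pderiv (some (some (some r))) φ)

private lemma span_tS (φ : MvPolynomial (Option (Option (Option ρ))) ℂ) (θ : ℂ) {ω : ℂ} (hω : ω ≠ 0) :
    Ideal.span (Set.range (zSys φ θ ω (zh ρ ω))) = Ideal.span (Set.range (tS φ θ ω)) := by
  have hcc : (C ω⁻¹ : MvPolynomial (Option (Option (Option ρ))) ℂ) * C ω = 1 := by
    rw [← C_mul, inv_mul_cancel₀ hω, C_1]
  apply le_antisymm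
  · rw [Ideal.span_le]
    have hh : zh ρ ω ∈ Ideal.span (Set.range (tS φ θ ω)) := Ideal.subset_span ⟨none, rfl⟩
    have hL : zL φ θ ω ∈ Ideal.span (Set.range (tS φ θ ω)) := Ideal.subset_span ⟨some none, rfl⟩
    rintro _ ⟨o, rfl⟩
    rcases o with _ | _ | _ | r
    · exact hh
    · exact Ideal.sub_mem _ (Ideal.mul_mem_left _ _ hh) hL
    · have h1 : zSys φ θ ω (zh ρ ω) (some (some none)) =
          C ω⁻¹ * (tS φ θ ω (some (some none)) + zL φ θ ω) - X (some (some none)) * zL φ θ ω := by
        change chY (Option ρ) (pderiv (some (some none)) φ) + C θ * X (some none) ^ 2 -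
          X (some (some none)) * zL φ θ ω = C ω⁻¹ * (C ω * (chY (Option ρ) (pderiv (some (some none)) φ) +
            C θ * X (some none) ^ 2) - zL φ θ ω + zL φ θ ω) - X (some (some none)) * zL φ θ ω
        rw [sub_add_cancel, ← mul_assoc, hcc, one_mul]
      rw [h1]
      exact Ideal.sub_mem _ (Ideal.mul_mem_left _ _ (Ideal.add_mem _ (Ideal.subset_span ⟨some (some none), rfl⟩) hL))
        (Ideal.mul_mem_left _ _ hL)
    · exact Ideal.sub_mem _ (Ideal.subset_span ⟨some (some (some r)), rfl⟩) (Ideal.mul_mem_left _ _ hL)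
  · rw [Ideal.span_le]
    have hh : zh ρ ω ∈ Ideal.span (Set.range (zSys φ θ ω (zh ρ ω))) := Ideal.subset_span ⟨none, rfl⟩
    have hL : zL φ θ ω ∈ Ideal.span (Set.range (zSys φ θ ω (zh ρ ω))) := by
      have h1 : zL φ θ ω = C (2 * θ) * zh ρ ω - zSys φ θ ω (zh ρ ω) (some none) := by
        change _ = C (2 * θ) * zh ρ ω - (C (2 * θ) * zh ρ ω - zL φ θ ω)
        rw [sub_sub_cancel]
      rw [h1]
      exact Ideal.sub_mem _ (Ideal.mul_mem_left _ _ hh) (Ideal.subset_span ⟨some none, rfl⟩)
    rintro _ ⟨o, rfl⟩
    rcases o with _ | _ | _ | r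
    · exact hh
    · exact hL
    · have h1 : tS φ θ ω (some (some none)) = C ω * (zSys φ θ ω (zh ρ ω) (some (some none)) +
          X (some (some none)) * zL φ θ ω) - zL φ θ ω := by
        change C ω * (chY (Option ρ) (pderiv (some (some none)) φ) + C θ * X (some none) ^ 2) - zL φ θ ω =
          C ω * (chY (Option ρ) (pderiv (some (some none)) φ) + C θ * X (some none) ^ 2 -
            X (some (some none)) * zL φ θ ω + X (some (some none)) * zL φ θ ω) - zL φ θ ω
        rw [sub_add_cancel]
      rw [h1]
      exact Ideal.sub_mem _ (Ideal.mul_mem_left _ _ (Ideal.add_mem _ (Ideal.subset_span ⟨some (some none), rfl⟩)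
        (Ideal.mul_mem_left _ _ hL))) hL
    · have h1 : tS φ θ ω (some (some (some r))) = zSys φ θ ω (zh ρ ω) (some (some (some r))) +
          X (some (some (some r))) * zL φ θ ω := by
        change chY (Option ρ) (pderiv (some (some (some r))) φ) =
          chY (Option ρ) (pderiv (some (some (some r))) φ) - X (some (some (some r))) * zL φ θ ω +
            X (some (some (some r))) * zL φ θ ω
        rw [sub_add_cancel]
      rw [h1]
      exact Ideal.add_mem _ (Ideal.subset_span ⟨some (some (some r)), rfl⟩) (Ideal.mul_mem_left _ _ hL)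

/-- the degrees -/
private def dT2 (ρ : Type) (q : ℕ) : Option (Option (Option ρ)) → ℕ
  | none => 2
  | some none => 2 * q
  | some (some none) => 2 * (q - 1)
  | some (some (some _)) => 2 * q

/-- **the sheet `h = 0`, `ω ≠ 0`, of the step `Z(ω)` over a state `t σ b^(q-1) + Pw(w,b,z)`** -/
theorem t2_J1 {q : ℕ} (hq2 : 2 ≤ q) {φ : MvPolynomial (Option (Option (Option ρ))) ℂ}
    {Pw : MvPolynomial (Option (Option ρ)) ℂ} {t : ℂ} (ht : t ≠ 0)
    (hφ : φ = X none * X (some (some none)) ^ (q - 1) * C t + rename some Pw) (hPi : Pw.IsHomogeneous (q + 1))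
    {θ ω : ℂ} (hθ : θ ≠ 0) (hω : ω ≠ 0)
    (hn : ∀ p : Option (Option ρ) → ℂ, p none = 0 → p (some none) = 0 →
      (∀ r, eval p (pderiv (some (some r)) Pw) = 0) → p = 0) :
    mulAt (Ideal.span (Set.range (zSys φ θ ω (zh ρ ω)))) 0 = 2 * (q - 1) * q ^ Fintype.card ρ := by
  obtain ⟨m, rfl⟩ : ∃ m, q = m + 2 := ⟨q - 2, by omega⟩
  obtain ⟨c, hc⟩ : ∃ c : ℂ, c = t * ((m : ℂ) + 1) := ⟨_, rfl⟩
  have hc0 : c ≠ 0 := by
    rw [hc]
    exact mul_ne_zero ht (by exact_mod_cast Nat.succ_ne_zero m)
  have hinj : Function.Injective (some : Option (Option ρ) → Option (Option (Option ρ))) := Option.some_injective _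
  -- derivatives of `φ`
  have e_w : chY (Option ρ) (pderiv (some none) φ) = rename (insY (Option ρ)) (pderiv none Pw) := by
    rw [← chY_ren, hφ]
    refine congrArg (chY (Option ρ)) ?_
    rw [map_add, pderiv_rename hinj]
    simp [Derivation.leibniz, Derivation.leibniz_pow, pderiv_X]
  have e_z : ∀ r, chY (Option ρ) (pderiv (some (some (some r))) φ) =
      rename (insY (Option ρ)) (pderiv (some (some r)) Pw) := by
    intro r
    rw [← chY_ren, hφ]
    refine congrArg (chY (Option ρ)) ?_
    rw [map_add, pderiv_rename hinj]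
    simp [Derivation.leibniz, Derivation.leibniz_pow, pderiv_X]
  have e_b : chY (Option ρ) (pderiv (some (some none)) φ) =
      C c * (qc (Option (Option ρ)) * X (some (some none)) ^ m) +
        rename (insY (Option ρ)) (pderiv (some none) Pw) := by
    rw [← chY_ren, hφ, map_add, pderiv_rename hinj, map_add]
    refine congrArg (· + chY (Option ρ) (rename some (pderiv (some none) Pw))) ?_
    have h1 : pderiv (some (some none)) (X none * X (some (some none)) ^ (m + 2 - 1) * C t :
        MvPolynomial (Option (Option (Option ρ))) ℂ) = C c * (X none * X (some (some none)) ^ m) := by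
      have e : m + 2 - 1 = m + 1 := by omega
      rw [e]
      rw [hc]
      simp only [Derivation.leibniz, Derivation.leibniz_pow, pderiv_X, pderiv_C, smul_eq_mul, nsmul_eq_mul]
      simp
      ring
    have h2 : chY (Option ρ) (X none) = qc (Option (Option ρ)) := by
      unfold chY
      rw [aeval_X]
      rfl
    have h3 : chY (Option ρ) (X (some (some none))) = X (some (some none)) := by
      unfold chY
      rw [aeval_X]
      rfl
    have h4 : chY (Option ρ) (C c) = C c := AlgHom.commutes _ c
    rw [h1, map_mul, map_mul, map_pow, h2, h3, h4]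
  set W := wT2 ρ (m + 2) with hW
  have hw : wh W 2 (X none) := wh_X W none
  have hb : wh W 2 (X (some (some none))) := wh_X W (some (some none))
  have hy : wh W (2 * (m + 2)) (X (some none) ^ 2) := by
    have h1 := wh_pow (wh_X W (some none)) 2
    have e : W (some none) * 2 = 2 * (m + 2) := by change (m + 2) * 2 = 2 * (m + 2); ring
    rwa [e] at h1
  have hd : ∀ o, (pderiv o Pw).IsHomogeneous (m + 2) := by
    intro o
    have := hPi.pderiv (i := o)
    simpa using this
  have hins : ∀ o, wh W (2 * (m + 2)) (rename (insY (Option ρ)) (pderiv o Pw)) := fun o => wh_ins (hd o)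
  have hLw : wh W (2 * (m + 2)) (zL φ θ ω) := by
    unfold zL
    rw [e_w]
    exact wh_add (hins none) (wh_C_mul _ hy)
  have hqc : Lead W 2 (qc (Option (Option ρ))) (X none) := by
    have e : qc (Option (Option ρ)) = X none + C (1 / 2) * (X (some none) ^ 2 + (X (some (some none)) ^ 2 +
        ∑ r : ρ, X (some (some (some r))) ^ 2)) := by
      unfold qc
      rw [Fintype.sum_option, Fintype.sum_option]
    rw [e]
    refine (Lead.self hw.wlo).add_hi (wlo_C_mul _ (wlo_add ?_ (wlo_add ?_ (wlo_sum _ fun r _ => ?_))))
    · exact wlo_mono (by omega) hy.wlo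
    · exact wlo_mono (by norm_num) (wh_pow hb 2).wlo
    · exact wlo_mono (by change 2 + 1 ≤ 2 * 2; norm_num) (wh_pow (wh_X W (some (some (some r)))) 2).wlo
  have hN0 : wh W (2 * (m + 1)) (C ω * (C c * (X none * X (some (some none)) ^ m))) := by
    have h1 := wh_C_mul ω (wh_C_mul c (wh_mul hw (wh_pow hb m)))
    have e : 2 + 2 * m = 2 * (m + 1) := by ring
    rwa [e] at h1
  have hN : Lead W (2 * (m + 1)) (C ω * (chY (Option ρ) (pderiv (some (some none)) φ) + C θ * X (some none) ^ 2) -
      zL φ θ ω) (C ω * (C c * (X none * X (some (some none)) ^ m))) := by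
    have h1 : Lead W (2 * (m + 1)) (C c * (qc (Option (Option ρ)) * X (some (some none)) ^ m))
        (C c * (X none * X (some (some none)) ^ m)) := by
      have h2 := (hqc.mul (Lead.pow (Lead.X W (some (some none))) m)).C_mul c
      have e : 2 + W (some (some none)) * m = 2 * (m + 1) := by change 2 + 2 * m = 2 * (m + 1); ring
      rwa [e] at h2
    rw [e_b, sub_eq_add_neg]
    refine ((h1.add_hi (wlo_mono (by omega) (hins (some none)).wlo)).add_hi
      (wlo_mono (by omega) (wlo_C_mul θ hy.wlo))).C_mul ω |>.add_hi (wlo_neg (wlo_mono (by omega) hLw.wlo))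
  let G0 : Option (Option (Option ρ)) → MvPolynomial (Option (Option (Option ρ))) ℂ := fun o =>
    match o with
    | none => zh ρ ω
    | some none => zL φ θ ω
    | some (some none) => C ω * (C c * (X none * X (some (some none)) ^ m))
    | some (some (some r)) => rename (insY (Option ρ)) (pderiv (some (some r)) Pw)
  have hzh : wh W 2 (zh ρ ω) := wh_add hb (wh_C_mul _ hw)
  have h1 := wBez (w := W)
    (fun o => by
      rcases o with _ | _ | _
      · exact two_pos
      · change 0 < m + 2; omega
      · exact two_pos)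
    (f := tS φ θ ω) (g := G0) (d := dT2 ρ (m + 2))
    (fun o => by
      rcases o with _ | _ | _ | r
      · exact two_pos
      · change 0 < 2 * (m + 2); omega
      · change 0 < 2 * (m + 2 - 1); omega
      · change 0 < 2 * (m + 2); omega)
    (fun o => by
      rcases o with _ | _ | _ | r
      · exact hzh
      · exact hLw
      · exact hN0
      · exact hins _)
    (fun x hx => by
      have hbw : x (some (some none)) + ω * x none = 0 := by
        have h3 : eval x (zh ρ ω) = 0 := hx none
        unfold zh at h3
        simpa using h3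
      have hmul : x none * x (some (some none)) ^ m = 0 := by
        have h3 : eval x (C ω * (C c * (X none * X (some (some none)) ^ m))) = 0 :=
          hx (some (some none))
        simp only [map_mul, map_pow, eval_C, eval_X] at h3
        rcases mul_eq_zero.mp h3 with h4 | h4
        · exact absurd h4 hω
        · rcases mul_eq_zero.mp h4 with h5 | h5
          · exact absurd h5 hc0
          · exact h5
      have hw0 : x none = 0 := by
        rcases mul_eq_zero.mp hmul with h3 | h3
        · exact h3
        · have h4 : x (some (some none)) = 0 := eq_zero_of_pow_eq_zero h3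
          rw [h4, zero_add] at hbw
          exact (mul_eq_zero.mp hbw).resolve_left hω
      have hb0 : x (some (some none)) = 0 := by
        rw [hw0, mul_zero, add_zero] at hbw
        exact hbw
      have hz : (fun o => x (insY (Option ρ) o)) = 0 := by
        refine hn _ hw0 hb0 fun r => ?_
        have h3 : eval x (rename (insY (Option ρ)) (pderiv (some (some r)) Pw)) = 0 := hx (some (some (some r)))
        rwa [ev_ins] at h3
      have hy0 : x (some none) = 0 := by
        have h3 : eval x (zL φ θ ω) = 0 := hx (some none)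
        unfold zL at h3
        rw [e_w, map_add, ev_ins, hz] at h3
        have h4 : eval (0 : Option (Option ρ) → ℂ) (pderiv none Pw) = 0 := by
          have h5 := eval_smul_hom (hd none) 0 (0 : Option (Option ρ) → ℂ)
          rw [smul_zero, zero_pow (by omega), zero_mul] at h5
          exact h5
        rw [h4] at h3
        simpa [hθ, hω] using h3
      funext o
      rcases o with _ | _ | _ | r
      · exact hw0
      · exact hy0
      · exact hb0
      · exact congrFun hz (some (some r)))
    (fun o => by
      rcases o with _ | _ | _ | r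
      · exact Lead.self hzh.wlo
      · exact Lead.self hLw.wlo
      · exact hN
      · change Lead W (2 * (m + 2)) (chY (Option ρ) (pderiv (some (some (some r))) φ))
          (rename (insY (Option ρ)) (pderiv (some (some r)) Pw))
        rw [e_z]
        exact Lead.self (hins _).wlo)
  rw [span_tS φ θ hω]
  have hprod : ∏ o, W o = 4 * (m + 2) * 2 ^ Fintype.card ρ := by
    rw [Fintype.prod_option, Fintype.prod_option, Fintype.prod_option]
    have : ∏ i : ρ, W (some (some (some i))) = 2 ^ Fintype.card ρ := by
      simp [hW, wT2]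
    rw [this]
    change 2 * ((m + 2) * (2 * 2 ^ Fintype.card ρ)) = _
    ring
  have hdp : ∏ o, dT2 ρ (m + 2) o = 2 * (2 * (m + 2) * (2 * (m + 1) * (2 * (m + 2)) ^ Fintype.card ρ)) := by
    rw [Fintype.prod_option, Fintype.prod_option, Fintype.prod_option]
    have : ∏ i : ρ, dT2 ρ (m + 2) (some (some (some i))) = (2 * (m + 2)) ^ Fintype.card ρ := by
      simp [dT2]
    rw [this]
    rfl
  rw [hprod, hdp] at h1
  have hpos : 0 < 4 * (m + 2) * 2 ^ Fintype.card ρ := by positivity
  apply Nat.eq_of_mul_eq_mul_right hpos
  rw [h1, mul_pow]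
  have e : m + 2 - 1 = m + 1 := by omega
  rw [e]
  ring

end

end EY
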